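import Pool.Agent.Q85.VL.Defs

/-! Project VL (helper12): the bound of the integrals over small cubes (StmMorV). -/

set_option autoImplicit false

open MeasureTheory Set Metric
open scoped ContDiff
open H459R3.NS Pool.Agent.W268.NS Pool.Agent.Q67.VD

namespace Pool.Agent.J4H56.VL

open Pool.Agent.Q85.CC Pool.Agent.Q85.CL Pool.Agent.Q151.CC Pool.Agent.Q85.VL

section

variable {κ R ρ μ : ℝ} {x : V} {f m : V → ℝ} {W : V → V} {g : V → ℝ}

lemma ion {h : V → ℝ} (hc : Continuous h) (x : V) (r : ℝ) :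
    IntegrableOn h (closedBall x r) volume :=
  hc.continuousOn.integrableOn_compact (isCompact_closedBall x r)

lemma f0 (h : LF κ R x f m W g) {y : V} (hy : y ∈ closedBall x R) : 0 ≤ f y :=
  (Real.sqrt_nonneg _).trans (h.up y hy)

lemma im_nonneg (h : LF κ R x f m W g) (z : V) (r : ℝ) : 0 ≤ ∫ y in closedBall z r, m y :=
  setIntegral_nonneg measurableSet_closedBall fun y _ => h.m0 y

lemma if_nonneg (h : LF κ R x f m W g) {r : ℝ} (hr : r ≤ R) :
    0 ≤ ∫ y in closedBall x r, f y :=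
  setIntegral_nonneg measurableSet_closedBall fun _ hy => f0 h (closedBall_subset_closedBall hr hy)

lemma im_mono (h : LF κ R x f m W g) {r r' : ℝ} (hr : r ≤ r') :
    ∫ y in closedBall x r, m y ≤ ∫ y in closedBall x r', m y :=
  setIntegral_mono_set (ion h.mc x r') (Filter.Eventually.of_forall fun y => h.m0 y)
    (closedBall_subset_closedBall hr).eventuallyLE

lemma if_mono (h : LF κ R x f m W g) {r r' : ℝ} (hr : r ≤ r') (hR : r' ≤ R) :
    ∫ y in closedBall x r, f y ≤ ∫ y in closedBall x r', f y := by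
  refine setIntegral_mono_set (ion h.fc x r') ?_ (closedBall_subset_closedBall hr).eventuallyLE
  exact (ae_restrict_iff' measurableSet_closedBall).2
    (Filter.Eventually.of_forall fun y hy => f0 h (closedBall_subset_closedBall hR hy))

lemma ks0 (hK : KS R x m μ) : 0 ≤ μ := by
  simpa using hK 0

lemma ks_term (hR : 0 < R) (h : LF κ R x f m W g) (hK : KS R x m μ) (j : ℕ) :
    ∫ y in closedBall x ((1 / 256 : ℝ) ^ j * R), m y ≤ μ * ((1 / 256 : ℝ) ^ j * R) := by
  have h1 := hK (j + 1)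
  have h2 : ((1 / 256 : ℝ) ^ j * R)⁻¹ * ∫ y in closedBall x ((1 / 256 : ℝ) ^ j * R), m y ≤ μ := by
    refine le_trans ?_ h1
    exact Finset.single_le_sum (f := fun j : ℕ => ((1 / 256 : ℝ) ^ j * R)⁻¹ *
      ∫ y in closedBall x ((1 / 256 : ℝ) ^ j * R), m y)
      (fun i _ => mul_nonneg (by positivity) (im_nonneg h x _)) (Finset.self_mem_range_succ j)
  have h3 : (0 : ℝ) < (1 / 256 : ℝ) ^ j * R := by positivity
  rw [inv_mul_le_iff₀ h3] at h2
  linarith

/-- the sums at the scales `(1 / 256) ^ j * S` -/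
lemma ks_sum {S : ℝ} (hS : 0 < S) (hSR : S ≤ R) (h : LF κ R x f m W g) (hK : KS R x m μ)
    (n : ℕ) : ∑ j ∈ Finset.range n,
      ((1 / 256 : ℝ) ^ j * S)⁻¹ * ∫ y in closedBall x ((1 / 256 : ℝ) ^ j * S), m y
        ≤ R / S * μ := by
  have hR : 0 < R := hS.trans_le hSR
  refine le_trans ?_ (mul_le_mul_of_nonneg_left (hK n) (by positivity))
  rw [Finset.mul_sum]
  refine Finset.sum_le_sum fun j _ => ?_
  have h1 : ∫ y in closedBall x ((1 / 256 : ℝ) ^ j * S), m y
      ≤ ∫ y in closedBall x ((1 / 256 : ℝ) ^ j * R), m y :=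
    im_mono h (mul_le_mul_of_nonneg_left hSR (by positivity))
  have h2 : R / S * (((1 / 256 : ℝ) ^ j * R)⁻¹ *
      ∫ y in closedBall x ((1 / 256 : ℝ) ^ j * R), m y)
      = ((1 / 256 : ℝ) ^ j * S)⁻¹ * ∫ y in closedBall x ((1 / 256 : ℝ) ^ j * R), m y := by
    field_simp
  rw [h2]
  exact mul_le_mul_of_nonneg_left h1 (by positivity)

lemma cmp_iter (hCmp : StmCmp) (hκ : 0 < κ) (hκ1 : κ ≤ 1) (hρ : 0 < ρ)
    (h : LF κ R x f m W g) (hK : KS R x m μ) {S : ℝ} (hS : 0 < S) (hSR : S ≤ R) (k n : ℕ) :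
    AA κ ρ R g x W m ((1 / 256 : ℝ) ^ (k + n) * S)
      ≤ AA κ ρ R g x W m ((1 / 256 : ℝ) ^ k * S) + 65536 / κ * (R / S * μ) := by
  set a : ℕ → ℝ := fun j => ((1 / 256 : ℝ) ^ j * S)⁻¹ *
    ∫ y in closedBall x ((1 / 256 : ℝ) ^ j * S), m y with ha
  have a0 : ∀ j, 0 ≤ a j := fun j => mul_nonneg (by positivity) (im_nonneg h x _)
  have key : ∀ n : ℕ, AA κ ρ R g x W m ((1 / 256 : ℝ) ^ (k + n) * S)
      ≤ AA κ ρ R g x W m ((1 / 256 : ℝ) ^ k * S)
        + 65536 / κ * (∑ j ∈ Finset.range (k + n), a j - ∑ j ∈ Finset.range k, a j) := by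
    intro n
    induction n with
    | zero => simp
    | succ n ih =>
      have e1 : (1 / 256 : ℝ) ^ (k + (n + 1)) * S = (1 / 256 : ℝ) ^ (k + n) * S / 256 := by
        rw [← add_assoc, pow_succ]
        ring
      have h0 : (0 : ℝ) < (1 / 256 : ℝ) ^ (k + n) * S := by positivity
      have h1 := hCmp κ ρ R ((1 / 256 : ℝ) ^ (k + n) * S) ((1 / 256 : ℝ) ^ (k + (n + 1)) * S)
        x f m W g hκ hκ1 hρ h (by positivity) (by rw [e1]; linarith)
        (by
          have : (1 / 256 : ℝ) ^ (k + n) ≤ 1 := pow_le_one₀ (by norm_num) (by norm_num)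
          nlinarith)
      have e2 : 256 / (κ * ((1 / 256 : ℝ) ^ (k + (n + 1)) * S)) *
          ∫ y in closedBall x ((1 / 256 : ℝ) ^ (k + n) * S), m y = 65536 / κ * a (k + n) := by
        rw [e1, ha]
        simp only
        field_simp
        ring
      rw [e2] at h1
      rw [← add_assoc, Finset.sum_range_succ]
      rw [← add_assoc] at h1
      have : 65536 / κ * (∑ j ∈ Finset.range (k + n), a j + a (k + n)
          - ∑ j ∈ Finset.range k, a j) = 65536 / κ * (∑ j ∈ Finset.range (k + n), a j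
          - ∑ j ∈ Finset.range k, a j) + 65536 / κ * a (k + n) := by ring
      rw [this]
      linarith
  refine (key n).trans ?_
  have h1 := ks_sum hS hSR h hK (k + n)
  have h2 : 0 ≤ ∑ j ∈ Finset.range k, a j := Finset.sum_nonneg fun j _ => a0 j
  have h3 : ∑ j ∈ Finset.range (k + n), a j ≤ R / S * μ := h1
  have h4 : (0 : ℝ) ≤ 65536 / κ := by positivity
  have h5 := mul_le_mul_of_nonneg_left (show ∑ j ∈ Finset.range (k + n), a j
    - ∑ j ∈ Finset.range k, a j ≤ R / S * μ by linarith) h4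
  linarith

/-- the integral of `2 f + m` -/
lemma int_add (h : LF κ R x f m W g) (r : ℝ) :
    ∫ y in closedBall x r, (2 * f y + m y)
      = 2 * (∫ y in closedBall x r, f y) + ∫ y in closedBall x r, m y := by
  rw [integral_add ((ion h.fc x r).const_mul 2) (ion h.mc x r), integral_const_mul]

/-- the last scale above a threshold -/
lemma last_scale {S T : ℝ} (hT : 0 < T) (hS : T ≤ S) :
    ∃ j : ℕ, T ≤ (1 / 256 : ℝ) ^ j * S ∧ (1 / 256 : ℝ) ^ j * S < 256 * T := by
  have hS0 : 0 < S := hT.trans_le hS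
  obtain ⟨n, hn⟩ := exists_pow_lt_of_lt_one (show (0 : ℝ) < T / S by positivity)
    (show (1 / 256 : ℝ) < 1 by norm_num)
  have hex : ∃ n : ℕ, (1 / 256 : ℝ) ^ n * S < T := ⟨n, by rwa [lt_div_iff₀ hS0] at hn⟩
  classical
  have h1 := Nat.find_spec hex
  have h0 : Nat.find hex ≠ 0 := by
    intro h0
    rw [h0] at h1
    simp only [pow_zero, one_mul] at h1
    linarith
  obtain ⟨j, hj⟩ := Nat.exists_eq_succ_of_ne_zero h0
  refine ⟨j, ?_, ?_⟩
  · have := Nat.find_min hex (m := j) (by omega)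
    exact not_lt.1 this
  · rw [hj, Nat.succ_eq_add_one, pow_succ] at h1
    linarith

end

theorem morV (hUB : StmUB) (hCmp : StmCmp) (hLB : StmLB) : StmMorV := by
  intro κ hκ hκ1
  refine ⟨(4096 ^ 2 * 65792 + 32768 ^ 2) / κ ^ 2, κ / 128, by positivity, by positivity,
    by linarith, ?_⟩
  intro R μ x f m W g hR h hK r hr hrR
  have hμ := ks0 hK
  have hT : 0 < 128 / κ * r := by positivity
  have hTR : 128 / κ * r ≤ R := by
    rw [div_mul_eq_mul_div, div_le_iff₀ hκ]
    linarith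
  obtain ⟨j, hj1, hj2⟩ := last_scale hT hTR
  set s := (1 / 256 : ℝ) ^ j * R with hs
  have hs0 : 0 < s := by positivity
  have hsR : s ≤ R := by
    have : (1 / 256 : ℝ) ^ j ≤ 1 := pow_le_one₀ (by norm_num) (by norm_num)
    nlinarith
  have h1 := hLB κ r R s x f m W g hκ hκ1 hr h hj1 hsR
  have h2 := cmp_iter hCmp hκ hκ1 hr h hK hR le_rfl 0 j
  rw [zero_add, pow_zero, one_mul, ← hs, div_self hR.ne', one_mul] at h2
  have h3 := hUB κ r R R x f m W g hκ hκ1 hr h hR le_rfl
  rw [int_add h] at h3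
  set F := ∫ y in closedBall x R, f y with hF
  have hF0 : 0 ≤ F := if_nonneg h le_rfl
  have hm1 : ∫ y in closedBall x R, m y ≤ μ * R := by
    have := ks_term hR h hK 0
    simpa using this
  have hm2 : ∫ y in closedBall x s, m y ≤ μ * s := ks_term hR h hK j
  have h4 : AA κ r R g x W m R ≤ 256 / κ * (F / R) + 128 / κ * μ := by
    refine h3.trans ?_
    calc 128 / (κ * R) * (2 * F + ∫ y in closedBall x R, m y)
        ≤ 128 / (κ * R) * (2 * F + μ * R) := by gcongr
      _ = 256 / κ * (F / R) + 128 / κ * μ := by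
        field_simp
        ring
  have hFR : 0 ≤ F / R := by positivity
  have h5 : AA κ r R g x W m s ≤ 65792 / κ * (F / R + μ) := by
    have : 0 ≤ F / R / κ := by positivity
    have e : 65792 / κ * (F / R + μ) - (256 / κ * (F / R) + 128 / κ * μ + 65536 / κ * μ)
        = 65536 * (F / R / κ) + 128 * (μ / κ) := by
      field_simp
      ring
    have : 0 ≤ μ / κ := by positivity
    linarith
  have hks : κ * s ≤ 32768 * r := by
    have : κ * s ≤ κ * (256 * (128 / κ * r)) := mul_le_mul_of_nonneg_left hj2.le hκ.le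
    have e : κ * (256 * (128 / κ * r)) = 32768 * r := by
      field_simp
      ring
    linarith
  have hks0 : 0 ≤ κ * s := by positivity
  have hFm : 0 ≤ F / R + μ := by positivity
  have h6 : (κ * s / 8) ^ 2 * AA κ r R g x W m s
      ≤ (4096 * r) ^ 2 * (65792 / κ * (F / R + μ)) := by
    calc (κ * s / 8) ^ 2 * AA κ r R g x W m s
        ≤ (κ * s / 8) ^ 2 * (65792 / κ * (F / R + μ)) := by gcongr
      _ ≤ (4096 * r) ^ 2 * (65792 / κ * (F / R + μ)) := by
        have : κ * s / 8 ≤ 4096 * r := by linarith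
        gcongr
  have h7 : κ * s / 4 * ∫ y in closedBall x s, m y ≤ (32768 * r) ^ 2 / (4 * κ) * (F / R + μ) := by
    calc κ * s / 4 * ∫ y in closedBall x s, m y ≤ κ * s / 4 * (μ * s) := by gcongr
      _ = (κ * s) ^ 2 / (4 * κ) * μ := by
        field_simp
      _ ≤ (32768 * r) ^ 2 / (4 * κ) * μ := by gcongr
      _ ≤ (32768 * r) ^ 2 / (4 * κ) * (F / R + μ) := by
        gcongr
        linarith
  have h8 : 2 * κ * r * ∫ y in closedBall x r, f y
      ≤ 2 * κ * r * ((4096 ^ 2 * 65792 + 32768 ^ 2) / κ ^ 2 * (F / R + μ) * r) := by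
    refine (h1.trans (add_le_add h6 h7)).trans ?_
    have e : 2 * κ * r * ((4096 ^ 2 * 65792 + 32768 ^ 2) / κ ^ 2 * (F / R + μ) * r)
        - ((4096 * r) ^ 2 * (65792 / κ * (F / R + μ))
          + (32768 * r) ^ 2 / (4 * κ) * (F / R + μ))
        = (4096 ^ 2 * 65792 + 32768 ^ 2 * 7 / 4) * (r ^ 2 / κ * (F / R + μ)) := by
      field_simp
      ring
    have : 0 ≤ (4096 ^ 2 * 65792 + 32768 ^ 2 * 7 / 4 : ℝ) * (r ^ 2 / κ * (F / R + μ)) := by
      positivity
    linarith
  exact le_of_mul_le_mul_left h8 (by positivity)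

end Pool.Agent.J4H56.VL
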