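import Pool.Agent.J4H56.VL.MorV

/-! Project VL (helper12): the pinching lemma (StmPinV). -/

set_option autoImplicit false

open MeasureTheory Set Metric Filter
open scoped ContDiff Topology
open H459R3.NS Pool.Agent.W268.NS Pool.Agent.Q67.VD

namespace Pool.Agent.J4H56.VL

open Pool.Agent.Q85.CC Pool.Agent.Q85.CL Pool.Agent.Q151.CC Pool.Agent.Q85.VL

/-! ### the square of the positive part -/

lemma pp_deriv (s : ℝ) : HasDerivAt (fun s : ℝ => (max 0 s) ^ 2) (2 * max 0 s) s := by
  rcases lt_trichotomy s 0 with h | h | h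
  · rw [max_eq_left h.le, mul_zero]
    refine (hasDerivAt_const s (0 : ℝ)).congr_of_eventuallyEq ?_
    filter_upwards [Iio_mem_nhds h] with t ht
    rw [max_eq_left (le_of_lt ht)]
    norm_num
  · subst h
    rw [max_self, mul_zero, hasDerivAt_iff_tendsto_slope_zero]
    have h1 : Tendsto (fun t : ℝ => max 0 t) (𝓝[≠] 0) (𝓝 0) := by
      have : Tendsto (fun t : ℝ => max 0 t) (𝓝 0) (𝓝 (max 0 0)) :=
        (continuous_const.max continuous_id).tendsto 0
      rw [max_self] at this
      exact this.mono_left nhdsWithin_le_nhds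
    refine h1.congr' ?_
    filter_upwards [self_mem_nhdsWithin] with t ht
    have ht' : t ≠ 0 := ht
    rw [zero_add, max_self, smul_eq_mul]
    rcases lt_or_gt_of_ne ht' with h | h
    · rw [max_eq_left h.le]
      norm_num
    · rw [max_eq_right h.le]
      field_simp
      ring
  · rw [max_eq_right h.le]
    have h1 : HasDerivAt (fun s : ℝ => s ^ 2) (2 * s) s := by
      simpa using hasDerivAt_pow 2 s
    refine h1.congr_of_eventuallyEq ?_
    filter_upwards [Ioi_mem_nhds h] with t ht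
    rw [max_eq_right (le_of_lt ht)]

lemma pp_smooth : ContDiff ℝ 1 (fun s : ℝ => (max 0 s) ^ 2) := by
  rw [contDiff_one_iff_deriv]
  refine ⟨fun s => (pp_deriv s).differentiableAt, ?_⟩
  have : deriv (fun s : ℝ => (max 0 s) ^ 2) = fun s => 2 * max 0 s := by
    funext s
    exact (pp_deriv s).deriv
  rw [this]
  fun_prop

/-! ### geometry -/

lemma len_le (a : V) : len a ≤ 2 * ‖a‖ := by
  unfold len
  rw [show (2 : ℝ) * ‖a‖ = √((2 * ‖a‖) ^ 2) from (Real.sqrt_sq (by positivity)).symm]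
  apply Real.sqrt_le_sqrt
  rw [dot3]
  have h : ∀ i, a i * a i ≤ ‖a‖ ^ 2 := by
    intro i
    have := norm_le_pi_norm a i
    rw [Real.norm_eq_abs] at this
    have h0 := abs_nonneg (a i)
    nlinarith [abs_mul_abs_self (a i)]
  nlinarith [h 0, h 1, h 2, norm_nonneg a]

lemma ds_ge (x : V) (ρ : ℝ) (y : V) : ‖y - x‖ ≤ ds x ρ y := by
  refine (pi_norm_le_iff_of_nonneg (Real.sqrt_nonneg _)).2 fun i => ?_
  rw [Real.norm_eq_abs]
  refine Real.abs_le_sqrt ?_
  have := coord_sq (y - x) i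
  nlinarith [sq_nonneg ρ]

lemma ds_cont (x : V) (ρ : ℝ) : Continuous (ds x ρ) := by
  unfold ds
  refine Real.continuous_sqrt.comp ?_
  simp only [dot3]
  fun_prop

section

variable {κ R ρ μ : ℝ} {x : V} {f m : V → ℝ} {W : V → V} {g : V → ℝ}

lemma uu_cont (h : LF κ R x f m W g) (ρ : ℝ) : Continuous (uu κ ρ g x) := by
  unfold uu
  exact (h.gs.continuous.sub continuous_const).sub (continuous_const.mul (ds_cont x ρ))

/-- the cut-off test function -/
lemma test (h : LF κ R x f m W g) {s T : ℝ} (hsR : s ≤ R)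
    (hT : ∀ y, ‖y - x‖ = s → T < g y) :
    ∫ y in closedBall x s, max 0 (T - g y) * fderiv ℝ g y (W y) = 0 := by
  classical
  set φ : V → ℝ := fun y => (max 0 (T - g y)) ^ 2 with hφ
  have hφs : ContDiff ℝ 1 φ := pp_smooth.comp (contDiff_const.sub h.gs)
  have hφd : ∀ y w, fderiv ℝ φ y w = -(2 * max 0 (T - g y) * fderiv ℝ g y w) := by
    intro y w
    have h1 : HasFDerivAt g (fderiv ℝ g y) y :=
      (h.gs.differentiable one_ne_zero y).hasFDerivAt
    have h2 : HasFDerivAt (fun y => T - g y) (-fderiv ℝ g y) y := by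
      simpa using h1.const_sub T
    have h3 := (pp_deriv (T - g y)).comp_hasFDerivAt y h2
    have h4 : fderiv ℝ φ y = (2 * max 0 (T - g y)) • (-fderiv ℝ g y) := h3.fderiv
    rw [h4]
    simp [mul_assoc]
  set F : V → ℝ := fun y => if ‖y - x‖ < s then φ y else 0 with hF
  have hin : ∀ y, ‖y - x‖ < s → F =ᶠ[𝓝 y] φ := by
    intro y hy
    have : ∀ᶠ z in 𝓝 y, ‖z - x‖ < s :=
      (continuous_id.sub continuous_const).norm.continuousAt.eventually_lt continuousAt_const hy
    filter_upwards [this] with z hz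
    simp only [hF, if_pos hz]
  have hout : ∀ y, s ≤ ‖y - x‖ → F =ᶠ[𝓝 y] fun _ => 0 := by
    intro y hy
    rcases hy.lt_or_eq with hy | hy
    · have : ∀ᶠ z in 𝓝 y, s < ‖z - x‖ :=
        continuousAt_const.eventually_lt
          (continuous_id.sub continuous_const).norm.continuousAt hy
      filter_upwards [this] with z hz
      simp only [hF, if_neg (not_lt.2 hz.le)]
    · have h1 : ∀ᶠ z in 𝓝 y, T < g z :=
        continuousAt_const.eventually_lt h.gs.continuous.continuousAt (hT y hy.symm)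
      filter_upwards [h1] with z hz
      have : φ z = 0 := by
        simp only [hφ]
        rw [max_eq_left (by linarith)]
        norm_num
      simp only [hF, this, ite_self]
  have hFs : ContDiff ℝ 1 F := by
    rw [contDiff_iff_contDiffAt]
    intro y
    rcases lt_or_ge ‖y - x‖ s with hy | hy
    · exact hφs.contDiffAt.congr_of_eventuallyEq (hin y hy)
    · exact contDiffAt_const.congr_of_eventuallyEq (hout y hy)
  have hts : tsupport F ⊆ closedBall x s := by
    refine closure_minimal ?_ isClosed_closedBall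
    intro y hy
    rw [Function.mem_support] at hy
    by_contra hc
    rw [mem_closedBall, dist_eq_norm, not_le] at hc
    exact hy (by simp only [hF, if_neg (not_lt.2 hc.le)])
  have h0 := h.wd.div F hFs (hts.trans (closedBall_subset_closedBall hsR))
  have h1 : ∫ y in closedBall x R, fderiv ℝ F y (W y)
      = ∫ y in closedBall x s, fderiv ℝ F y (W y) := by
    refine (setIntegral_eq_of_subset_of_forall_sdiff_eq_zero measurableSet_closedBall
      (closedBall_subset_closedBall hsR) ?_)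
    intro y hy
    have hy2 : s ≤ ‖y - x‖ := by
      have := hy.2
      rw [mem_closedBall, dist_eq_norm, not_le] at this
      exact this.le
    rw [(hout y hy2).fderiv_eq]
    simp
  have h2 : ∫ y in closedBall x s, fderiv ℝ F y (W y)
      = ∫ y in closedBall x s, -(2 * (max 0 (T - g y) * fderiv ℝ g y (W y))) := by
    refine setIntegral_congr_fun measurableSet_closedBall fun y hy => ?_
    rw [mem_closedBall, dist_eq_norm] at hy
    rcases hy.lt_or_eq with hy | hy
    · rw [(hin y hy).fderiv_eq, hφd]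
      ring
    · rw [(hout y hy.ge).fderiv_eq]
      rw [max_eq_left (by linarith [hT y hy])]
      simp
  rw [h1, h2, integral_neg, integral_const_mul] at h0
  linarith

/-- a point of the surface with a small value of `u` -/
lemma low_pt (hUB : StmUB) (hκ : 0 < κ) (hκ1 : κ ≤ 1) (hρ : 0 < ρ) (h : LF κ R x f m W g)
    {r s q a : ℝ} (hr : 0 < r) (hrR : r ≤ R) (hs1 : r / 64 ≤ s) (hs2 : s ≤ r / 32)
    (hq : 0 < q) (hq1 : q ≤ κ / 262144)
    (hm : ∫ y in closedBall x r, m y ≤ 4 * μ * r)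
    (hm' : ∫ y in closedBall x (q * r), m y ≤ 4 * μ * (q * r)) (hμ : 0 ≤ μ)
    (ha : a ≤ AA κ ρ R g x W m (q * r)) (hma : 66048 * μ / (κ ^ 3 * q) < a) :
    ∃ y, ‖y - x‖ = s ∧ uu κ ρ g x y < -(4 * (κ / 65536) * r) := by
  by_contra hc
  push Not at hc
  have hq2 : q ≤ 1 / 262144 := hq1.trans (by linarith)
  have hκr : 0 < κ * r := by positivity
  set T : ℝ := g x + 500 * (κ / 65536) * r with hTd
  have hT : ∀ y, ‖y - x‖ = s → T < g y := by
    intro y hy
    have h1 := hc y hy
    unfold uu at h1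
    have h2 := ds_ge x ρ y
    rw [hy] at h2
    have h3 : κ / 2 * (r / 64) ≤ κ / 2 * ds x ρ y := by
      have : r / 64 ≤ ds x ρ y := hs1.trans h2
      gcongr
    have h4 : T < g y := by
      rw [hTd]
      nlinarith
    exact h4
  have hsR : s ≤ R := by linarith
  have h0 := test h hsR hT
  have gb : ∀ y, |g y - g x| ≤ 2 * ‖y - x‖ := fun y => (h.lip y x).trans (len_le _)
  have cg : Continuous g := h.gs.continuous
  have cφ : Continuous fun y => max 0 (T - g y) := by fun_prop
  have cd : Continuous fun y => fderiv ℝ g y (W y) :=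
    (h.gs.continuous_fderiv one_ne_zero).clm_apply h.wd.cont
  have φ0 : ∀ y, 0 ≤ max 0 (T - g y) := fun y => le_max_left _ _
  -- the inequality
  have h1 : ∫ y in closedBall x s, max 0 (T - g y) * (κ * f y)
      ≤ ∫ y in closedBall x s, max 0 (T - g y) * m y := by
    have h2 : ∫ y in closedBall x s, max 0 (T - g y) * (κ * f y)
        ≤ ∫ y in closedBall x s, (max 0 (T - g y) * fderiv ℝ g y (W y)
          + max 0 (T - g y) * m y) := by
      refine setIntegral_mono_on (ion (cφ.mul (continuous_const.mul h.fc)) x s)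
        (ion ((cφ.mul cd).add (cφ.mul h.mc)) x s) measurableSet_closedBall fun y hy => ?_
      have h3 := h.lo y (closedBall_subset_closedBall hsR hy)
      rw [← mul_add]
      exact mul_le_mul_of_nonneg_left h3 (φ0 y)
    have e : ∫ y in closedBall x s, (max 0 (T - g y) * fderiv ℝ g y (W y)
          + max 0 (T - g y) * m y) = (∫ y in closedBall x s, max 0 (T - g y) * fderiv ℝ g y (W y))
          + ∫ y in closedBall x s, max 0 (T - g y) * m y :=
      integral_add (ion (cφ.mul cd) x s) (ion (cφ.mul h.mc) x s)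
    rw [e, h0, zero_add] at h2
    exact h2
  have h2 : ∫ y in closedBall x s, max 0 (T - g y) * m y ≤ r / 4 * (4 * μ * r) := by
    have h3 : ∫ y in closedBall x s, max 0 (T - g y) * m y
        ≤ ∫ y in closedBall x s, r / 4 * m y := by
      refine setIntegral_mono_on (ion (cφ.mul h.mc) x s)
        (ion (continuous_const.mul h.mc) x s) measurableSet_closedBall fun y hy => ?_
      refine mul_le_mul_of_nonneg_right ?_ (h.m0 y)
      rw [mem_closedBall, dist_eq_norm] at hy
      have h4 := (abs_le.1 (gb y)).1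
      refine max_le (by positivity) ?_
      rw [hTd]
      nlinarith
    rw [integral_const_mul] at h3
    refine h3.trans ?_
    have h4 : ∫ y in closedBall x s, m y ≤ 4 * μ * r :=
      (im_mono h (by linarith)).trans hm
    gcongr
  have hqr : q * r ≤ s := by nlinarith
  have h3 : κ * r / 256 * κ * (∫ y in closedBall x (q * r), f y)
      ≤ ∫ y in closedBall x s, max 0 (T - g y) * (κ * f y) := by
    calc κ * r / 256 * κ * (∫ y in closedBall x (q * r), f y)
        = ∫ y in closedBall x (q * r), κ * r / 256 * (κ * f y) := by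
          rw [integral_const_mul, integral_const_mul]
          ring
      _ ≤ ∫ y in closedBall x (q * r), max 0 (T - g y) * (κ * f y) := by
          refine setIntegral_mono_on
            (ion (continuous_const.mul (continuous_const.mul h.fc)) x _)
            (ion (cφ.mul (continuous_const.mul h.fc)) x _) measurableSet_closedBall
            fun y hy => ?_
          have hf0 : 0 ≤ f y := f0 h (closedBall_subset_closedBall (hqr.trans hsR) hy)
          refine mul_le_mul_of_nonneg_right ?_ (by positivity)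
          refine le_trans ?_ (le_max_right _ _)
          rw [mem_closedBall, dist_eq_norm] at hy
          have h4 := (abs_le.1 (gb y)).2
          have h5 : q * r ≤ κ / 262144 * r := by gcongr
          rw [hTd]
          nlinarith
      _ ≤ ∫ y in closedBall x s, max 0 (T - g y) * (κ * f y) := by
          refine setIntegral_mono_set (ion (cφ.mul (continuous_const.mul h.fc)) x s) ?_
            (closedBall_subset_closedBall hqr).eventuallyLE
          exact (ae_restrict_iff' measurableSet_closedBall).2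
            (Filter.Eventually.of_forall fun y hy =>
              mul_nonneg (φ0 y) (mul_nonneg hκ.le (f0 h (closedBall_subset_closedBall hsR hy))))
  set I := ∫ y in closedBall x (q * r), f y with hI
  have h4 : I ≤ 256 * μ * r / κ ^ 2 := by
    rw [le_div_iff₀ (by positivity)]
    have h5 : κ * r / 256 * κ * I ≤ r / 4 * (4 * μ * r) := h3.trans (h1.trans h2)
    have h6 : r * (I * κ ^ 2) ≤ r * (256 * μ * r) := by nlinarith
    exact le_of_mul_le_mul_left h6 hr
  have h5 := hUB κ ρ R (q * r) x f m W g hκ hκ1 hρ h (by positivity) (hqr.trans hsR)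
  rw [int_add h, ← hI] at h5
  have h6 : 128 / (κ * (q * r)) * (2 * I + ∫ y in closedBall x (q * r), m y)
      ≤ 128 / (κ * (q * r)) * (2 * (256 * μ * r / κ ^ 2) + 4 * μ * (q * r)) := by
    gcongr
  have h7 : 128 / (κ * (q * r)) * (2 * (256 * μ * r / κ ^ 2) + 4 * μ * (q * r))
      ≤ 66048 * μ / (κ ^ 3 * q) := by
    have e : 66048 * μ / (κ ^ 3 * q)
        - 128 / (κ * (q * r)) * (2 * (256 * μ * r / κ ^ 2) + 4 * μ * (q * r))
        = 512 * μ * (1 - κ ^ 2 * q) / (κ ^ 3 * q) := by
      field_simp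
      ring
    have h8 : κ ^ 2 * q ≤ 1 := by
      have : κ ^ 2 ≤ 1 := pow_le_one₀ hκ.le hκ1
      nlinarith
    have h9 : 0 ≤ 512 * μ * (1 - κ ^ 2 * q) / (κ ^ 3 * q) := by
      have : 0 ≤ 1 - κ ^ 2 * q := by linarith
      positivity
    linarith
  linarith

/-- the flux through the surface -/
lemma shell_flux (hFC : StmFC) (hκ : 0 < κ) (hκ1 : κ ≤ 1) (hρ : 0 < ρ) (h : LF κ R x f m W g)
    {r s w a : ℝ} (hr : 0 < r) (hrR : r ≤ R) (hs1 : r / 64 ≤ s) (hs2 : s ≤ r / 32)
    (hm : ∫ y in closedBall x r, m y ≤ 4 * μ * r)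
    (ha : a ≤ AA κ ρ R g x W m (r / 256)) (hma : 262144 * μ / κ ≤ a / 2) (hw : 0 < w)
    (hws : w ≤ s / 4) :
    a * w / 4 ≤ ∫ y in Shell x s w ∩ {y | 0 < uu κ ρ g x y}, f y := by
  have h1 := hFC κ ρ R (r / 256) s w x f m W g hκ hκ1 hρ h (by positivity) (by linarith) hw hws
    (by linarith)
  have h2 : ∫ y in closedBall x (s + w), m y ≤ 4 * μ * r :=
    (im_mono h (by linarith)).trans hm
  have h3 : 256 / (κ * (r / 256)) * ∫ y in closedBall x (s + w), m y ≤ 262144 * μ / κ := by
    calc 256 / (κ * (r / 256)) * ∫ y in closedBall x (s + w), m y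
        ≤ 256 / (κ * (r / 256)) * (4 * μ * r) := by gcongr
      _ = 262144 * μ / κ := by
        field_simp
        ring
  set J := ∫ y in Shell x s w ∩ {y | 0 < uu κ ρ g x y}, f y with hJ
  have h4 : a / 2 ≤ 2 / w * J := by linarith
  have h5 : a / 2 * w ≤ 2 * J := by
    have : a / 2 * w ≤ 2 / w * J * w := by gcongr
    have e : 2 / w * J * w = 2 * J := by
      field_simp
    linarith
  linarith

/-- the closed version of the shell -/
lemma shell_sub {s w : ℝ} (hsw : s + w ≤ R) : Shell x s w ⊆ closedBall x R := by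
  intro y hy
  have h1 : |‖y - x‖ - s| ≤ w := hy
  rw [mem_closedBall, dist_eq_norm]
  have := (abs_le.1 h1).2
  linarith

lemma shell_closed {s w : ℝ} : IsClosed (Shell x s w) := by
  unfold Shell
  exact isClosed_le (by fun_prop) continuous_const

lemma shell_le (h : LF κ R x f m W g) {s w : ℝ} (hsw : s + w ≤ R) (ρ : ℝ) :
    ∫ y in Shell x s w ∩ {y | 0 < uu κ ρ g x y}, f y ≤ ∫ y in Shell x s w, f y := by
  refine setIntegral_mono_set ((ion h.fc x R).mono_set (shell_sub hsw)) ?_
    inter_subset_left.eventuallyLE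
  exact (ae_restrict_iff' shell_closed.measurableSet).2
    (Filter.Eventually.of_forall fun y hy => f0 h (shell_sub hsw hy))

/-- a point of the surface with `0 ≤ u` -/
lemma high_pt (h : LF κ R x f m W g) {s : ℝ} (hs : 0 < s)
    (hne : ∀ w, 0 < w → w ≤ s / 4 → (Shell x s w ∩ {y | 0 < uu κ ρ g x y}).Nonempty) :
    ∃ y, ‖y - x‖ = s ∧ 0 ≤ uu κ ρ g x y := by
  set K : Set V := Shell x s (s / 4) ∩ {y | 0 ≤ uu κ ρ g x y} with hKd
  have hK : IsCompact K := by
    refine IsCompact.of_isClosed_subset (isCompact_closedBall x (s + s / 4))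
      (shell_closed.inter (isClosed_le continuous_const (uu_cont h ρ))) ?_
    exact inter_subset_left.trans (shell_sub le_rfl)
  have hKn : K.Nonempty := by
    obtain ⟨y, hy1, hy2⟩ := hne (s / 4) (by positivity) le_rfl
    have hy3 : 0 < uu κ ρ g x y := hy2
    exact ⟨y, hy1, hy3.le⟩
  have cn : Continuous fun y : V => |‖y - x‖ - s| := by fun_prop
  obtain ⟨y, hy, hmin⟩ := hK.exists_isMinOn hKn cn.continuousOn
  refine ⟨y, ?_, hy.2⟩
  by_contra hc
  have h1 : 0 < |‖y - x‖ - s| := abs_pos.2 (sub_ne_zero.2 hc)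
  have h2 : |‖y - x‖ - s| ≤ s / 4 := hy.1
  obtain ⟨z, hz1, hz2⟩ := hne (|‖y - x‖ - s| / 2) (by positivity) (by linarith)
  have h3 : |‖z - x‖ - s| ≤ |‖y - x‖ - s| / 2 := hz1
  have h4 : z ∈ K := by
    have hz4 : 0 < uu κ ρ g x z := hz2
    refine ⟨?_, hz4.le⟩
    show |‖z - x‖ - s| ≤ s / 4
    linarith
  have h5 : |‖y - x‖ - s| ≤ |‖z - x‖ - s| := hmin h4
  linarith

lemma rank_V : 1 < Module.rank ℝ V := by
  have : Module.rank ℝ V = 3 := by
    have := Module.finrank_eq_rank ℝ V
    rw [← this]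
    simp
  rw [this]
  norm_num

/-- a point of the surface with a given value of `u` -/
lemma mid_pt (h : LF κ R x f m W g) {s t : ℝ} {y z : V} (hy : ‖y - x‖ = s) (hz : ‖z - x‖ = s)
    (hy1 : uu κ ρ g x y ≤ t) (hz1 : t ≤ uu κ ρ g x z) :
    ∃ y, ‖y - x‖ = s ∧ uu κ ρ g x y = t := by
  have h1 := isPreconnected_sphere rank_V x s
  have h2 := h1.intermediate_value (a := y) (b := z) (by rw [mem_sphere, dist_eq_norm, hy])
    (by rw [mem_sphere, dist_eq_norm, hz]) (uu_cont h ρ).continuousOn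
  obtain ⟨p, hp1, hp2⟩ := h2 ⟨hy1, hz1⟩
  exact ⟨p, by rwa [mem_sphere, dist_eq_norm] at hp1, hp2⟩

/-- the pinching at one scale -/
lemma pinch (hUB : StmUB) (hFC : StmFC) (hTF : StmTF) (hκ : 0 < κ) (hκ1 : κ ≤ 1) (hρ : 0 < ρ)
    (h : LF κ R x f m W g) {r q a τ : ℝ} (hr : 0 < r) (hrR : r ≤ R) (hρr : ρ ≤ r / 64)
    (hq : 0 < q) (hq1 : q ≤ κ / 262144)
    (hm : ∫ y in closedBall x r, m y ≤ 4 * μ * r)
    (hm' : ∫ y in closedBall x (q * r), m y ≤ 4 * μ * (q * r)) (hμ : 0 ≤ μ)
    (ha0 : 0 < a) (ha1 : a ≤ AA κ ρ R g x W m (q * r)) (ha2 : a ≤ AA κ ρ R g x W m (r / 256))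
    (hma1 : 66048 * μ / (κ ^ 3 * q) < a) (hma2 : 262144 * μ / κ ≤ a / 2)
    (hA : AA κ ρ R g x W m r - AA κ ρ R g x W m (r / 256) ≤ 256 * τ)
    (hμτ : μ ≤ κ * τ / 8192) {s : ℝ} (hs1 : r / 64 ≤ s) (hs2 : s ≤ r / 32) :
    (∃ z, ‖z - x‖ = s ∧ ∫ y in closedBall z (κ / 524288 * r), f y ≤ τ * r) ∧
      ∀ w : ℝ, 0 < w → w ≤ s / 4 → a * w / 4 ≤ ∫ y in Shell x s w, f y := by
  have hs : 0 < s := by linarith
  have hsh : ∀ w : ℝ, 0 < w → w ≤ s / 4 →
      a * w / 4 ≤ ∫ y in Shell x s w ∩ {y | 0 < uu κ ρ g x y}, f y :=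
    fun w hw hws => shell_flux hFC hκ hκ1 hρ h hr hrR hs1 hs2 hm ha2 hma2 hw hws
  constructor
  · obtain ⟨y, hy, hy1⟩ := low_pt hUB hκ hκ1 hρ h hr hrR hs1 hs2 hq hq1 hm hm' hμ ha1 hma1
    obtain ⟨z, hz, hz1⟩ := high_pt (ρ := ρ) h hs fun w hw hws => by
      by_contra hc
      rw [not_nonempty_iff_eq_empty] at hc
      have := hsh w hw hws
      rw [hc] at this
      simp only [Measure.restrict_empty, integral_zero_measure] at this
      have : 0 < a * w / 4 := by positivity
      linarith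
    have hneg : -(4 * (κ / 65536) * r) ≤ 0 := by
      have : 0 ≤ 4 * (κ / 65536) * r := by positivity
      linarith
    obtain ⟨p, hp, hp1⟩ := mid_pt h hy hz hy1.le (hneg.trans hz1)
    refine ⟨p, hp, ?_⟩
    refine (hTF κ ρ R r s x p f m W g hκ hκ1 hρ h hr hrR hρr hs1 hs2 hp hp1).trans ?_
    have h1 : r / 512 * (AA κ ρ R g x W m r - AA κ ρ R g x W m (r / 256))
        ≤ r / 512 * (256 * τ) := by gcongr
    have h2 : 1024 / κ * ∫ y in closedBall x r, m y ≤ 1024 / κ * (4 * μ * r) := by gcongr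
    have h3 : 1024 / κ * (4 * μ * r) ≤ 1024 / κ * (4 * (κ * τ / 8192) * r) := by gcongr
    have h4 : 1024 / κ * (4 * (κ * τ / 8192) * r) = τ * r / 2 := by
      field_simp
      ring
    linarith
  · intro w hw hws
    exact (hsh w hw hws).trans (shell_le h (by linarith) ρ)

end

theorem pinV (hUB : StmUB) (hCmp : StmCmp) (hLB : StmLB) (hFC : StmFC) (hTF : StmTF) :
    StmPinV := by
  intro κ hκ hκ1
  obtain ⟨n1, hn1⟩ := exists_pow_lt_of_lt_one (show (0 : ℝ) < κ / 512 by positivity)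
    (show (1 / 256 : ℝ) < 1 by norm_num)
  obtain ⟨n2, hn2⟩ := exists_pow_lt_of_lt_one (show (0 : ℝ) < κ / 262144 by positivity)
    (show (1 / 256 : ℝ) < 1 by norm_num)
  set q : ℝ := (1 / 256 : ℝ) ^ n2 with hqd
  have hq : 0 < q := by positivity
  have hq1 : q ≤ 1 := by linarith
  have hc1 : κ ^ 4 * q / 2 ^ 45 ≤ 1 := by
    have : κ ^ 4 ≤ 1 := pow_le_one₀ hκ.le hκ1
    have : κ ^ 4 * q ≤ 1 := mul_le_one₀ this hq.le hq1
    linarith
  refine ⟨κ / 524288, κ ^ 4 * q / 2 ^ 45, by positivity, by linarith, by positivity, hc1, ?_⟩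
  intro K η τ hK hη hη1 hτ hτ1
  obtain ⟨N1, hN1⟩ := exists_nat_ge (1024 / κ * (K + 1) / (256 * τ))
  have hN1' : 1024 / κ * (K + 1) ≤ N1 * (256 * τ) := by
    rwa [div_le_iff₀ (by positivity)] at hN1
  refine ⟨N1 + n1 + n2 + 1, ?_⟩
  intro R ρ x f m W g hR h hf hKS hρ hρN hfρ
  set μ : ℝ := κ ^ 4 * q / 2 ^ 45 * η * τ with hμd
  have hμ : 0 ≤ μ := ks0 hKS
  set N := N1 + n1 + n2 + 1 with hN
  set S : ℝ := R / 4 with hSd
  have hS : 0 < S := by positivity
  have hSR : S ≤ R := by linarith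
  -- bounds of `μ`
  have hκ4 : κ ^ 4 ≤ κ ^ 2 := pow_le_pow_of_le_one hκ.le hκ1 (by norm_num)
  have hκ41 : κ ^ 4 ≤ κ := by
    calc κ ^ 4 ≤ κ ^ 1 := pow_le_pow_of_le_one hκ.le hκ1 (by norm_num)
      _ = κ := pow_one κ
  have μ1 : μ ≤ κ ^ 2 * η / 2 ^ 45 := by
    rw [hμd]
    calc κ ^ 4 * q / 2 ^ 45 * η * τ ≤ κ ^ 2 * 1 / 2 ^ 45 * η * 1 := by gcongr
      _ = _ := by ring
  have μ2 : μ ≤ κ * τ / 2 ^ 45 := by
    rw [hμd]
    calc κ ^ 4 * q / 2 ^ 45 * η * τ ≤ κ * 1 / 2 ^ 45 * 1 * τ := by gcongr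
      _ = _ := by ring
  have μ3 : μ ≤ κ ^ 4 * q * η / 2 ^ 45 := by
    rw [hμd]
    calc κ ^ 4 * q / 2 ^ 45 * η * τ ≤ κ ^ 4 * q / 2 ^ 45 * η * 1 := by gcongr
      _ = _ := by ring
  have μ4 : μ ≤ 1 := by
    have : κ ^ 2 ≤ 1 := pow_le_one₀ hκ.le hκ1
    have : κ ^ 2 * η ≤ 1 := mul_le_one₀ this hη.le hη1
    linarith
  -- the last scale
  have hT : 0 < 128 / κ * ρ := by positivity
  have hbig : ∀ j, j + n1 ≤ N → 128 / κ * ρ ≤ (1 / 256 : ℝ) ^ j * S := by
    intro j hj
    have h1 : (1 / 256 : ℝ) ^ N ≤ (1 / 256 : ℝ) ^ (j + n1) :=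
      pow_le_pow_of_le_one (by norm_num) (by norm_num) hj
    have h2 : ρ ≤ (1 / 256 : ℝ) ^ j * (κ / 512) * R := by
      refine hρN.trans ?_
      have : (1 / 256 : ℝ) ^ N ≤ (1 / 256 : ℝ) ^ j * (κ / 512) := by
        refine h1.trans ?_
        rw [pow_add]
        gcongr
      gcongr
    calc 128 / κ * ρ ≤ 128 / κ * ((1 / 256 : ℝ) ^ j * (κ / 512) * R) := by gcongr
      _ = (1 / 256 : ℝ) ^ j * S := by
        rw [hSd]
        field_simp
        norm_num
  obtain ⟨ks, hks1, hks2⟩ := last_scale hT (by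
    have := hbig 0 (by omega)
    simpa using this)
  have hjle : ∀ j, j + n1 ≤ N → j ≤ ks := by
    intro j hj
    by_contra hc
    push Not at hc
    have h1 := hbig j hj
    have h2 : (1 / 256 : ℝ) ^ j ≤ (1 / 256 : ℝ) ^ (ks + 1) :=
      pow_le_pow_of_le_one (by norm_num) (by norm_num) hc
    have h3 : (1 / 256 : ℝ) ^ j * S ≤ (1 / 256 : ℝ) ^ (ks + 1) * S := by gcongr
    rw [pow_succ] at h3
    linarith
  -- the lower bound of the flux
  have hmS : ∀ j, ∫ y in closedBall x ((1 / 256 : ℝ) ^ j * S), m y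
      ≤ 4 * μ * ((1 / 256 : ℝ) ^ j * S) := by
    intro j
    have h1 := ks_term hR h hKS j
    have h2 : ∫ y in closedBall x ((1 / 256 : ℝ) ^ j * S), m y
        ≤ ∫ y in closedBall x ((1 / 256 : ℝ) ^ j * R), m y :=
      im_mono h (by gcongr)
    have e : 4 * μ * ((1 / 256 : ℝ) ^ j * S) = μ * ((1 / 256 : ℝ) ^ j * R) := by
      rw [hSd]
      ring
    rw [e]
    exact h2.trans h1
  have rle : ∀ j, (1 / 256 : ℝ) ^ j * S ≤ R := by
    intro j
    have : (1 / 256 : ℝ) ^ j ≤ 1 := pow_le_one₀ (by norm_num) (by norm_num)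
    nlinarith
  have hA1 : κ * η / 2 ^ 24 ≤ AA κ ρ R g x W m ((1 / 256 : ℝ) ^ ks * S) := by
    set rs := (1 / 256 : ℝ) ^ ks * S with hrs
    have hrs0 : 0 < rs := by positivity
    have h1 := hLB κ ρ R rs x f m W g hκ hκ1 hρ h hks1 (rle ks)
    have h2 : κ * rs ≤ 32768 * ρ := by
      have h3 : κ * rs ≤ κ * (256 * (128 / κ * ρ)) := by gcongr
      have e : κ * (256 * (128 / κ * ρ)) = 32768 * ρ := by
        field_simp
        norm_num
      linarith
    have h3 : κ * rs / 4 * ∫ y in closedBall x rs, m y ≤ κ * η * ρ ^ 2 := by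
      calc κ * rs / 4 * ∫ y in closedBall x rs, m y
          ≤ κ * rs / 4 * (4 * μ * rs) := by
            have := hmS ks
            gcongr
        _ = (κ * rs) ^ 2 / κ * μ := by
            field_simp
        _ ≤ (32768 * ρ) ^ 2 / κ * (κ ^ 2 * η / 2 ^ 45) := by gcongr
        _ = κ * η * ρ ^ 2 / 2 ^ 15 := by
            field_simp
            norm_num
        _ ≤ κ * η * ρ ^ 2 := by
            have : 0 ≤ κ * η * ρ ^ 2 := by positivity
            linarith
    have h4 : 2 * κ * ρ * (η * ρ) ≤ 2 * κ * ρ * ∫ y in closedBall x ρ, f y := by gcongr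
    have h5 : κ * η * ρ ^ 2 ≤ (κ * rs / 8) ^ 2 * AA κ ρ R g x W m rs := by nlinarith
    have h6 : 0 < AA κ ρ R g x W m rs := by
      have : 0 < κ * η * ρ ^ 2 := by positivity
      have h7 : 0 < (κ * rs / 8) ^ 2 * AA κ ρ R g x W m rs := by linarith
      exact (mul_pos_iff_of_pos_left (by positivity)).1 h7
    have h7 : (κ * rs / 8) ^ 2 * AA κ ρ R g x W m rs ≤ (4096 * ρ) ^ 2 * AA κ ρ R g x W m rs := by
      have : κ * rs / 8 ≤ 4096 * ρ := by linarith
      gcongr
    have h8 : ρ ^ 2 * (κ * η) ≤ ρ ^ 2 * (2 ^ 24 * AA κ ρ R g x W m rs) := by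
      nlinarith
    have h9 := le_of_mul_le_mul_left h8 (by positivity)
    rw [div_le_iff₀ (by positivity)]
    linarith
  set a : ℝ := κ * η / 2 ^ 25 with had
  have ha0 : 0 < a := by positivity
  have hlow : ∀ j, j ≤ ks → a ≤ AA κ ρ R g x W m ((1 / 256 : ℝ) ^ j * S) := by
    intro j hj
    have h1 := cmp_iter hCmp hκ hκ1 hρ h hKS hS hSR j (ks - j)
    rw [Nat.add_sub_cancel' hj] at h1
    have h2 : 65536 / κ * (R / S * μ) ≤ a := by
      have e : R / S = 4 := by
        rw [hSd]
        field_simp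
      rw [e]
      calc 65536 / κ * (4 * μ) ≤ 65536 / κ * (4 * (κ ^ 2 * η / 2 ^ 45)) := by gcongr
        _ = κ * η / 2 ^ 27 := by
          field_simp
          norm_num
        _ ≤ a := by
          rw [had]
          have : 0 < κ * η := by positivity
          linarith
    have e : κ * η / 2 ^ 24 = 2 * a := by
      rw [had]
      ring
    linarith
  -- pigeonhole
  obtain ⟨k, hk, hkA⟩ : ∃ k < N1, AA κ ρ R g x W m ((1 / 256 : ℝ) ^ k * S)
      - AA κ ρ R g x W m ((1 / 256 : ℝ) ^ (k + 1) * S) ≤ 256 * τ := by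
    by_contra hc
    push Not at hc
    have h1 : ∀ n, n ≤ N1 → AA κ ρ R g x W m ((1 / 256 : ℝ) ^ n * S)
        ≤ AA κ ρ R g x W m ((1 / 256 : ℝ) ^ 0 * S) - n * (256 * τ) := by
      intro n
      induction n with
      | zero => intro _; simp
      | succ n ih =>
        intro hn
        have h2 := ih (by omega)
        have h3 := hc n (by omega)
        push_cast
        linarith
    have h2 := h1 N1 le_rfl
    have h3 := hlow N1 (hjle N1 (by omega))
    have h4 := hUB κ ρ R S x f m W g hκ hκ1 hρ h hS hSR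
    rw [int_add h] at h4
    have h5 : ∫ y in closedBall x S, f y ≤ K * R := (if_mono h hSR le_rfl).trans hf
    have h6 := hmS 0
    rw [pow_zero, one_mul] at h6 h2
    have h7 : 128 / (κ * S) * (2 * (∫ y in closedBall x S, f y) + ∫ y in closedBall x S, m y)
        ≤ 1024 / κ * (K + 1) := by
      calc 128 / (κ * S) * (2 * (∫ y in closedBall x S, f y) + ∫ y in closedBall x S, m y)
          ≤ 128 / (κ * S) * (2 * (K * R) + 4 * 1 * S) := by
            have : 4 * μ * S ≤ 4 * 1 * S := by gcongr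
            have : ∫ y in closedBall x S, m y ≤ 4 * 1 * S := h6.trans this
            gcongr
        _ = 1024 / κ * K + 512 / κ := by
            rw [hSd]
            field_simp
            ring
        _ ≤ 1024 / κ * (K + 1) := by
            have : 0 < 1 / κ := by positivity
            have e : 1024 / κ * (K + 1) - (1024 / κ * K + 512 / κ) = 512 * (1 / κ) := by
              ring
            linarith
    linarith
  refine ⟨k, by omega, fun s hs1 hs2 => ?_⟩
  set r : ℝ := (1 / 256 : ℝ) ^ k * S with hrd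
  have hr : 0 < r := by positivity
  have er : (1 / 256 : ℝ) ^ (k + 1) * S = r / 256 := by
    rw [hrd, pow_succ]
    ring
  have eq : (1 / 256 : ℝ) ^ (k + n2) * S = q * r := by
    rw [hrd, hqd, pow_add]
    ring
  have h1 : a ≤ AA κ ρ R g x W m (q * r) := by
    have := hlow (k + n2) (hjle _ (by omega))
    rwa [eq] at this
  have h2 : a ≤ AA κ ρ R g x W m (r / 256) := by
    have := hlow (k + 1) (hjle _ (by omega))
    rwa [er] at this
  have h3 : ∫ y in closedBall x (q * r), m y ≤ 4 * μ * (q * r) := by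
    have := hmS (k + n2)
    rwa [eq] at this
  rw [er] at hkA
  have h4 : 66048 * μ / (κ ^ 3 * q) < a := by
    calc 66048 * μ / (κ ^ 3 * q) ≤ 66048 * (κ ^ 4 * q * η / 2 ^ 45) / (κ ^ 3 * q) := by gcongr
      _ = 66048 * (κ * η) / 2 ^ 45 := by
        field_simp
      _ < a := by
        rw [had]
        have : 0 < κ * η := by positivity
        linarith
  have h5 : 262144 * μ / κ ≤ a / 2 := by
    calc 262144 * μ / κ ≤ 262144 * (κ ^ 2 * η / 2 ^ 45) / κ := by gcongr
      _ = κ * η / 2 ^ 27 := by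
        field_simp
        norm_num
      _ ≤ a / 2 := by
        rw [had]
        have : 0 < κ * η := by positivity
        linarith
  have h6 : μ ≤ κ * τ / 8192 := by
    refine μ2.trans ?_
    have : 0 < κ * τ := by positivity
    linarith
  have h7 : ρ ≤ r / 64 := by
    have h8 := hbig k (by omega)
    have h9 : 128 * ρ ≤ 128 / κ * ρ := by
      have : (128 : ℝ) ≤ 128 / κ := by
        rw [le_div_iff₀ hκ]
        linarith
      gcongr
    linarith
  obtain ⟨p1, p2⟩ := pinch hUB hFC hTF hκ hκ1 hρ h hr (rle k) h7 hq hn2.le (hmS k) h3 hμ ha0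
    h1 h2 h4 h5 hkA h6 hs1 hs2
  refine ⟨p1, fun w hw hws => ?_⟩
  refine le_trans ?_ (p2 w hw hws)
  have h8 : κ ^ 4 * q / 2 ^ 45 * η * w ≤ κ * 1 / 2 ^ 45 * η * w := by gcongr
  have h9 : κ * 1 / 2 ^ 45 * η * w ≤ a * w / 4 := by
    rw [had]
    have : 0 < κ * η * w := by positivity
    linarith
  linarith

end Pool.Agent.J4H56.VL
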